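import Pool.Agent.H97.RL.Targets

set_option autoImplicit false

namespace Pool.Agent.H1.RLM

open Finset Pool.Agent.H97.RK Pool.Agent.H97.RL

theorem pf_ALZ (hTAU : T_TAU) : T_ALZ := by
  intro n k m F j t d e s₀ hP S r line hrS hlr U G hstep x A₀ hA
  by_contra hcon
  push Not at hcon
  obtain ⟨y₀, W, J, hSt, hd⟩ := hTAU n k m F j t d e s₀ hP x A₀ (by omega)
  have hv : vs (∅ : Clause n) = ∅ := by
    unfold vs
    exact Finset.image_empty _
  have hAt : At F j t d e line y₀ A₀ r := by
    refine ⟨y₀, W, J, ?_, fun _ _ => rfl, ?_, ?_⟩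
    · rw [hlr, hv, union_empty]
      exact hSt
    · rw [hlr]
      intro l hl
      exact absurd hl (Finset.notMem_empty l)
    · rw [hlr, hv, union_empty]
      omega
  have key : ∀ l, l < S → l ≤ r → (l ∈ U ∨ l = r) → ¬ At F j t d e line y₀ A₀ l := by
    intro l
    induction l using Nat.strong_induction_on with
    | _ l ih =>
      intro h1 h2 h3 h4
      obtain ⟨z, hz⟩ := hcon l h1 h3
      rcases hstep x z y₀ A₀ l h1 h2 h3 hd h4 with h | ⟨l', h5, h6, h7⟩
      · exact hz h
      · exact ih l' h5 (by omega) (by omega) (Or.inl h6) h7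
  exact key r hrS le_rfl (Or.inr rfl) hAt

end Pool.Agent.H1.RLM
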